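import Pool.Agent.K6.helper20.NM.Mat

set_option autoImplicit false

/-!
# Complex structures on nilmanifolds with abelian commutator subgroup

**Every compact six-dimensional nilmanifold `Γ \ G` with abelian commutator subgroup is
diffeomorphic to a complex manifold.** The same holds for every compact nilmanifold of even
dimension `≥ 6` with abelian commutator subgroup and first Betti number two.

Of the 34 isomorphism types of six-dimensional real nilpotent Lie algebras 32 have an abelian
commutator algebra (all but `(0,0,12,13,14,34+52)` and `(0,0,12,13,14+23,34+52)`). Among them are 14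
of the 16 types without a left-invariant complex structure.

The simply connected nilpotent group `G` is `exp 𝔤`, where `𝔤` is a Lie algebra of strictly upper
triangular matrices (every simply connected nilpotent group is of this form, by the embedding theorem
of Birkhoff). By Mal'cev a lattice `Γ` of `G` determines a rational form of `𝔤`; it has a basis `b`
with rational structure constants such that `log Γ` is contained in the integral combinations of `b`.
So `G` is `ℝ ^ (2k)` with the coordinates `x ↦ exp (∑ i, x i • b i)`.

The proof: a rational form of `𝔤` has an abelian ideal of codimension two which contains the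
commutators. In dimension six this uses that `L / V` acts faithfully on a maximal abelian ideal `V`
which contains the commutators, by commuting nilpotent endomorphisms, and that the strictly
triangular `3 × 3` matrices do not commute. Then `PlaneByVector` is applied in coordinates of the
second kind on `G`.
-/

namespace Pool.Agent.Results.MP_1d980c_gt.MetabelianNilmanifolds

open Module NormedSpace
open scoped Manifold ContDiff

/-- `b` is a basis with rational structure constants of a Lie algebra of strictly upper triangular
matrices with abelian commutator algebra. -/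
structure IsRationalMetabelian {n d : ℕ} (b : Fin d → Matrix (Fin n) (Fin n) ℝ) : Prop where
  linearIndependent : LinearIndependent ℝ b
  upper : ∀ i r s, s ≤ r → b i r s = 0
  rational : ∀ i j, ∃ c : Fin d → ℚ, b i * b j - b j * b i = ∑ l, (c l : ℝ) • b l
  metabelian : ∀ i j k l, Commute (b i * b j - b j * b i) (b k * b l - b l * b k)

/-- The dimension of the commutator algebra of the Lie algebra with basis `b`. -/
noncomputable def commutatorDim {n d : ℕ} (b : Fin d → Matrix (Fin n) (Fin n) ℝ) : ℕ :=
  finrank ℝ (Submodule.span ℝ (Set.range fun p : Fin d × Fin d =>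
    b p.1 * b p.2 - b p.2 * b p.1))

theorem result (k n : ℕ)
    -- the simply connected nilpotent Lie group `G` with its rational structure
    (b : Fin (2 * k) → Matrix (Fin n) (Fin n) ℝ) (hb : IsRationalMetabelian b)
    -- the dimension is six, or it is at least six and the first Betti number is two
    (hk : k = 3 ∨ (3 ≤ k ∧ commutatorDim b + 2 = 2 * k))
    -- the discrete subgroup `exp (∑ i, γ i • b i)`, `γ ∈ Γ`, of `G`
    (Γ : Set (Fin (2 * k) → ℤ))
    -- the smooth manifold `M = Γ \ G`
    (M : Type) [TopologicalSpace M] [ChartedSpace (EuclideanSpace ℝ (Fin (2 * k))) M]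
    [IsManifold (𝓡 (2 * k)) ∞ M] (π : (Fin (2 * k) → ℝ) → M) (hs : Function.Surjective π)
    (hl : IsLocalDiffeomorph 𝓘(ℝ, Fin (2 * k) → ℝ) (𝓡 (2 * k)) ∞ π)
    (hπ : ∀ x y, π x = π y ↔ ∃ γ ∈ Γ,
      exp (∑ i, (γ i : ℝ) • b i) * exp (∑ i, x i • b i) = exp (∑ i, y i • b i)) :
    ∃ (N : Type) (_ : TopologicalSpace N) (_ : ChartedSpace (EuclideanSpace ℂ (Fin k)) N),
      IsManifold 𝓘(ℂ, EuclideanSpace ℂ (Fin k)) ∞ N ∧
      Nonempty (Diffeomorph (𝓡 (2 * k)) 𝓘(ℝ, EuclideanSpace ℂ (Fin k)) M N ∞) :=
  Pool.Agent.K6.helper20.NM.main hb.linearIndependent hb.upper hb.rational hb.metabelian hk Γ π hs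
    hl hπ

end Pool.Agent.Results.MP_1d980c_gt.MetabelianNilmanifolds
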