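import Pool.Agent.K6.H16.SB.Fin

set_option autoImplicit false

/-!
# Complex structures on bundles over surfaces with fibre `N × T^(2m-1)`, `N` normal almost contact

Let `N` be a smooth manifold with a normal almost contact structure whose Reeb field is complete,
for instance the sphere `S^(2d-1)` or any closed Sasakian manifold. In the theorem this is
formulated as follows (Sasaki and Hatakeyama): `E` is a complex manifold of dimension `d` with a
holomorphic action `Θ` of the additive group `ℂ`, and `D` is a diffeomorphism of `N × ℝ` with `E`,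
such that `Θ t`, `t` real, is the translation by `t` in `ℝ`, and `Θ (i t)` maps `N × {0}` to itself
(it is the flow of the Reeb field). For the sphere `E = ℂ^d - 0`, `Θ w e = exp(w) e` and
`D (x, t) = exp(t) x`.

Let `Y` be the complex plane or the upper half plane, `P` a group which acts on `Y` by holomorphic
maps, properly discontinuously and cocompactly, `F` a nonconstant holomorphic function on `Y` with
`F (γ z) - F z ∈ ℤ[i]` (a branched covering of the elliptic curve `ℂ / ℤ[i]` by `Y / P`), `V` a real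
vector space of odd dimension `2m - 1 ≥ 3`, `A` a representation of `P` on `V × ℝ` which fixes the
vector `(0, 1)`, and `G` a smooth frame of its flat vector bundle which fixes `(0, 1)`; `b` is a
smooth cocycle with values in `V × ℝ`, and `a γ` is a holomorphic map of `E` which commutes with `Θ`
and maps `N` to itself. Then `γ ∈ P` acts on `N × Y × V` by

  `(x, z, v) ↦ (Θ (i w₂) (a γ x), γ z, w₁)`,  `w = A γ (v, 0) + b γ z`.

Let `M` be a smooth manifold which is a quotient of `N × Y × V` by these maps. Then `M` carries a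
complex structure.

The simplest case is `A γ (v, t) = (A' γ v, t)`, `b = (b', 0)`, `a γ = id`. Then `M = N × M'`, where
`M'` is a bundle over the closed surface `Y / P` whose fibre is a torus of odd dimension `2m - 1`,
with an arbitrary representation `A'` of `P` in `GL(2m - 1, ℤ)` such that the flat bundle is trivial
as a smooth vector bundle and an arbitrary twisting class. For instance `S^(2d-1) × M'` has a complex
structure. If `M'` has a normal almost contact structure then this is a theorem of Morimoto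
(Calabi and Eckmann for a product of two spheres); in general `M'` has no evident one.

The idea of the proof: the rows of the complex structure of the torus bundle over `Y / P` with fibre
`V × ℝ` are invariant under translations by `(0, 1)`; the quotient of (this bundle) `× E` by the
diagonal action of `ℂ` is diffeomorphic to `M`. Global coordinates on the quotient are found with
holomorphic functions `α`, `β` on `Y` such that `α τ₁ + β τ₂ = 1`, where `τ₁`, `τ₂` are the values of
two of the rows at `(0, 1)`; the rows are constructed such that these have no common zeros.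
-/

namespace Pool.Agent.Results.MP_1d980c_gt.NormalContactFibres

open Module TopologicalSpace
open scoped Manifold ContDiff

/-- `Y` is the plane or the upper half plane, `P` acts on it by holomorphic maps, properly
discontinuously and cocompactly, and `F` is a nonconstant holomorphic function on `Y` which changes
by elements of `ℤ[i]` under `P`: a nonconstant map of the closed surface `Y / P` to the elliptic
curve `ℂ / ℤ[i]`. -/
structure IsSurface (Y : Opens ℂ) (P : Type) [Group P] [MulAction P Y] (F : Y → ℂ) : Prop where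
  plane : (Y : Set ℂ) = Set.univ ∨ (Y : Set ℂ) = {z | 0 < z.im}
  hol : ∀ γ : P, ContMDiff 𝓘(ℂ) 𝓘(ℂ) ∞ fun z : Y => γ • z
  proper : ∀ K : Set Y, IsCompact K →
    {σ : Y → Y | ∃ γ : P, (σ = fun z => γ • z) ∧ ∃ z ∈ K, γ • z ∈ K}.Finite
  cocompact : ∃ K : Set Y, IsCompact K ∧ ∀ z, ∃ γ : P, γ • z ∈ K
  F_hol : ContMDiff 𝓘(ℂ) 𝓘(ℂ) ∞ F
  F_ne : ∃ z w, F z ≠ F w
  F_per : ∀ γ : P, ∃ m n : ℤ, ∀ z, F (γ • z) = F z + m + n * Complex.I

/-- `A` is a representation of `P` on `V × ℝ` which fixes `(0, 1)`, `G` is a smooth frame of its flat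
vector bundle on `Y / P` which fixes `(0, 1)`, and `b` is a smooth cocycle with values in `V × ℝ`
(constant for elements of `P` which act trivially on `Y`). -/
structure IsAffine {Y : Opens ℂ} {P : Type} [Group P] [MulAction P Y] {V : Type}
    [NormedAddCommGroup V] [NormedSpace ℝ V] (A : P →* ((V × ℝ) →L[ℝ] (V × ℝ)))
    (G : Y → (V × ℝ) ≃L[ℝ] (V × ℝ)) (b : P → Y → V × ℝ) : Prop where
  A_one : ∀ γ, A γ (0, 1) = (0, 1)
  G_smooth : ContMDiff 𝓘(ℝ, ℂ) 𝓘(ℝ, (V × ℝ) →L[ℝ] (V × ℝ)) ∞
    fun z => (G z : (V × ℝ) →L[ℝ] (V × ℝ))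
  G_A : ∀ γ z v, G (γ • z) v = A γ (G z v)
  G_one : ∀ z, G z (0, 1) = (0, 1)
  b_smooth : ∀ γ, ContMDiff 𝓘(ℝ, ℂ) 𝓘(ℝ, V × ℝ) ∞ (b γ)
  b_mul : ∀ γ δ z, b (γ * δ) z = A γ (b δ z) + b γ (δ • z)
  b_const : ∀ γ, (∀ z : Y, γ • z = z) → ∃ v, ∀ z, b γ z = v

/-- `Θ` is a holomorphic action of the additive group `ℂ` on the complex manifold `E`; if `E` is
identified with `N × ℝ` by `D` then real times translate `ℝ` and imaginary times map `N × {0}` to
itself. (`N` is normal almost contact, with the complete Reeb field the derivative of `Θ (i t)`.) -/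
structure IsReeb {FE E : Type} [NormedAddCommGroup FE] [NormedSpace ℂ FE] [TopologicalSpace E]
    [ChartedSpace FE E] (Θ : ℂ → E → E) {FN N : Type} [NormedAddCommGroup FN] [NormedSpace ℝ FN]
    [TopologicalSpace N] [ChartedSpace FN N]
    (D : Diffeomorph (𝓘(ℝ, FN).prod 𝓘(ℝ, ℝ)) 𝓘(ℝ, FE) (N × ℝ) E ∞) : Prop where
  hol : ContMDiff (𝓘(ℂ, ℂ).prod 𝓘(ℂ, FE)) 𝓘(ℂ, FE) ∞ fun x : ℂ × E => Θ x.1 x.2
  zero : ∀ e, Θ 0 e = e
  add : ∀ s t e, Θ (s + t) e = Θ s (Θ t e)
  real : ∀ x (t : ℝ), D (x, t) = Θ t (D (x, 0))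
  imag : ∀ x (t : ℝ), ∃ x', Θ (Complex.I * t) (D (x, 0)) = D (x', 0)

/-- `g` is a holomorphic map of `E` which commutes with `Θ` and maps `N × {0}` to itself. -/
structure IsSymm {FE E : Type} [NormedAddCommGroup FE] [NormedSpace ℂ FE] [TopologicalSpace E]
    [ChartedSpace FE E] (Θ : ℂ → E → E) {FN N : Type} [NormedAddCommGroup FN] [NormedSpace ℝ FN]
    [TopologicalSpace N] [ChartedSpace FN N]
    (D : Diffeomorph (𝓘(ℝ, FN).prod 𝓘(ℝ, ℝ)) 𝓘(ℝ, FE) (N × ℝ) E ∞) (g : E → E) : Prop where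
  hol : ContMDiff 𝓘(ℂ, FE) 𝓘(ℂ, FE) ∞ g
  comm : ∀ s e, g (Θ s e) = Θ s (g e)
  maps : ∀ x, ∃ x', g (D (x, 0)) = D (x', 0)

/-- `M` is the quotient of `N × Y × V` by the maps
`(x, z, v) ↦ (Θ (i w₂) (a γ x), γ z, w₁)`, `w = A γ (v, 0) + b γ z`, of `γ ∈ P`. -/
structure IsQuotient {Y : Opens ℂ} {P : Type} [Group P] [MulAction P Y] {V : Type}
    [NormedAddCommGroup V] [NormedSpace ℝ V] (A : P →* ((V × ℝ) →L[ℝ] (V × ℝ)))
    (b : P → Y → V × ℝ) {FE E : Type} [NormedAddCommGroup FE] [NormedSpace ℂ FE]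
    [TopologicalSpace E] [ChartedSpace FE E] (Θ : ℂ → E → E) {FN N : Type}
    [NormedAddCommGroup FN] [NormedSpace ℝ FN] [TopologicalSpace N] [ChartedSpace FN N]
    (D : Diffeomorph (𝓘(ℝ, FN).prod 𝓘(ℝ, ℝ)) 𝓘(ℝ, FE) (N × ℝ) E ∞)
    (a : P → E → E) {FM M : Type} [NormedAddCommGroup FM] [NormedSpace ℝ FM] [TopologicalSpace M]
    [ChartedSpace FM M] (π : N × (Y × V) → M) : Prop where
  surj : Function.Surjective π
  locDiffeo : IsLocalDiffeomorph (𝓘(ℝ, FN).prod (𝓘(ℝ, ℂ).prod 𝓘(ℝ, V))) 𝓘(ℝ, FM) ∞ π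
  orbits : ∀ x y, π x = π y ↔ ∃ γ : P,
    y.2 = (γ • x.2.1, (A γ (x.2.2, 0) + b γ x.2.1).1) ∧
    D (y.1, 0) = Θ (Complex.I * (A γ (x.2.2, 0) + b γ x.2.1).2) (a γ (D (x.1, 0)))

/-- `M` is diffeomorphic to a complex manifold which is modelled on the complex vector space `F`. -/
def IsComplex (F : Type) [NormedAddCommGroup F] [NormedSpace ℂ F] (FM M : Type)
    [NormedAddCommGroup FM] [NormedSpace ℝ FM] [TopologicalSpace M] [ChartedSpace FM M] : Prop :=
  ∃ (X : Type) (_ : TopologicalSpace X) (_ : ChartedSpace F X),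
    IsManifold 𝓘(ℂ, F) ∞ X ∧ Nonempty (Diffeomorph 𝓘(ℝ, FM) 𝓘(ℝ, F) M X ∞)

theorem result (m : ℕ) (hm : 2 ≤ m)
    -- the surface
    (Y : Opens ℂ) (P : Type) [Group P] [MulAction P Y] (F : Y → ℂ) (hF : IsSurface Y P F)
    -- the affine bundle
    (V : Type) [NormedAddCommGroup V] [NormedSpace ℝ V] [FiniteDimensional ℝ V]
    (hV : finrank ℝ V + 1 = 2 * m) (A : P →* ((V × ℝ) →L[ℝ] (V × ℝ)))
    (G : Y → (V × ℝ) ≃L[ℝ] (V × ℝ)) (b : P → Y → V × ℝ) (hA : IsAffine A G b)
    -- the complex manifold `E`, modelled on `FE`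
    (FE E : Type) [NormedAddCommGroup FE] [NormedSpace ℂ FE] [FiniteDimensional ℂ FE]
    [TopologicalSpace E] [ChartedSpace FE E] [IsManifold 𝓘(ℂ, FE) ∞ E] (Θ : ℂ → E → E)
    -- the normal almost contact manifold `N`
    (FN N : Type) [NormedAddCommGroup FN] [NormedSpace ℝ FN] [TopologicalSpace N]
    [ChartedSpace FN N] [IsManifold 𝓘(ℝ, FN) ∞ N]
    (D : Diffeomorph (𝓘(ℝ, FN).prod 𝓘(ℝ, ℝ)) 𝓘(ℝ, FE) (N × ℝ) E ∞)
    (hD : IsReeb Θ D) (a : P → E → E) (ha : ∀ γ, IsSymm Θ D (a γ))
    -- the smooth manifold `M`, the quotient of `N × Y × V` by `P`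
    (FM M : Type) [NormedAddCommGroup FM] [NormedSpace ℝ FM] [TopologicalSpace M]
    [ChartedSpace FM M] [IsManifold 𝓘(ℝ, FM) ∞ M] (π : N × (Y × V) → M)
    (hπ : IsQuotient A b Θ D a (FM := FM) π) :
    IsComplex (FE × (Fin m → ℂ)) FM M :=
  Pool.Agent.K6.H16.SB.final2 m hm Y hF.plane P hF.hol hF.proper hF.cocompact F hF.F_hol
    hF.F_ne hF.F_per V hV A hA.A_one G hA.G_smooth hA.G_A hA.G_one b hA.b_smooth hA.b_mul
    hA.b_const FE E Θ hD.hol hD.zero hD.add FN N D hD.real hD.imag a (fun γ => (ha γ).hol)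
    (fun γ => (ha γ).comm) (fun γ => (ha γ).maps) FM M π hπ.surj hπ.locDiffeo hπ.orbits

end Pool.Agent.Results.MP_1d980c_gt.NormalContactFibres
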