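import Pool.Agent.K6.H52.SB.Bf
import Pool.Agent.K6.H52.ST.Pr

set_option autoImplicit false

/-!
# Principal torus bundles times large tori are complex

Let `B` be a complex manifold (Hausdorff and `σ`-compact, for example compact) of dimension `d`, let
`L` be a holomorphic line bundle on `B`, and let `x_0, …, x_m` be holomorphic sections of `L`
without common zeros. Let `P` be a smooth principal bundle over `B` whose structure group is the
torus `ℝ ^ r / ℤ ^ r`, with Chern classes `c_1, …, c_r ∈ H² (B, ℤ)`. Assume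

* `H² (B, L) = 0`, or only that `x_l c_s = 0` in `H² (B, L)` for all `s` and `l`.

Let `T` be a torus of dimension `q`, where `r + q = 2 s` is even, `r ≤ 2 p` and
`(m + 1) (m + p) ≤ s`. Then `P × T` carries a complex structure (part (1) of the theorem).

There is no condition on the types of the Chern classes of `P`. If `B` is projective, then every
sufficiently ample line bundle `L` satisfies the assumptions for all `P` (by Serre's theorem, which
is not used here). So for every principal torus bundle `P` over a projective manifold `B`, for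
example a circle bundle with any Chern class over a K3 surface, `P × T` is complex for all tori `T`
of large dimension of the right parity. For `m = 0`, `L = 𝒪` and `x_0 = 1` the assumption is that
the Chern classes have no part of type `(0, 2)`.

Cohomology is Čech cohomology of an open cover `U` on which `L` is trivial and `P` has transition
functions with lifts to `ℝ ^ r`; every `P` and `L` have such covers, which moreover can be taken
Stein, with contractible intersections.

The principal torus bundles over tori are the compact two-step nilmanifolds (and tori). For them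
part (2) of the theorem is an explicit result without any assumption on cohomology. Let `G` be a
simply connected two-step nilpotent Lie group with `dim G = 2k`, `dim G / Z(G) ≤ 2m`,
`dim [G, G] ≤ 2p` and `(m + 1)(m + p) + m ≤ k`. Then every compact quotient of `G` by left
translations carries a complex structure. In particular `N₀ × T` carries a complex structure for
every compact two-step nilmanifold `N₀` of dimension `n` and every torus `T` of dimension `q` with
`2q ≥ (n + 3)²` and `n + q` even.

The idea: the fibre of `P × T` is `ℝ ^ (r + q)` modulo a lattice; write `ℝ ^ (r + q)` as the space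
of `(m + p) × (m + 1)` matrices `D` (and `ℂ ^ t`), with `ℝ ^ r` in the Toeplitz matrices. Complex
coordinates on the fibre over `z` are `D x (z)`, and the complex conjugates of the entries of `D'`
modulo `x (z)`, where `D'` is the part of `D` with vanishing diagonal sums. The transition functions
of `P` only change `D x (z)`, by a smooth cocycle with values in `L ^ (m + p)`, which can be replaced
by a holomorphic one. In part (2), `x_0 (z), …, x_m (z)` are the coefficients of the polynomial
`∏ (θ₀ (z_j) + θ₁ (z_j) X)`, where `θ₀`, `θ₁` are theta functions of degree two.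
-/

namespace Pool.Agent.Results.MP_1d980c_gt.PrincipalTimesTorus

open Complex Module Filter
open scoped Manifold ContDiff Topology

section

variable (d : ℕ) {B : Type} [TopologicalSpace B] [ChartedSpace (EuclideanSpace ℂ (Fin d)) B]
  {ι : Type}

/-- The function `h` on the complex manifold `B` of dimension `d` is holomorphic on the set `s`. -/
def HolomorphicOn {F : Type} [NormedAddCommGroup F] [NormedSpace ℂ F] (h : B → F) (s : Set B) :
    Prop :=
  ContMDiffOn 𝓘(ℂ, EuclideanSpace ℂ (Fin d)) 𝓘(ℂ, F) ∞ h s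

/-- `U` is an open cover of `B`, `f i j` are the transition functions of a holomorphic line bundle
`L` which is trivial on the sets `U i`, and `x i` are the expressions on `U i` of `m + 1`
holomorphic sections of `L` without common zeros. (It follows that `f i j` has no zeros and that
`f i j * f j k = f i k`.) -/
structure IsGeneratedLineBundle {m : ℕ} (U : ι → Set B) (f : ι → ι → B → ℂ)
    (x : ι → B → Fin (m + 1) → ℂ) : Prop where
  isOpen : ∀ i, IsOpen (U i)
  cover : ∀ z, ∃ i, z ∈ U i
  holomorphic : ∀ i j, HolomorphicOn d (f i j) (U i ∩ U j)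
  holomorphic_section : ∀ i, HolomorphicOn d (x i) (U i)
  transition : ∀ i j, ∀ z ∈ U i ∩ U j, x i z = f i j z • x j z
  no_common_zeros : ∀ i, ∀ z ∈ U i, x i z ≠ 0

/-- `h` is a Čech 2-cocycle with values in the line bundle with the transition functions `f`. -/
def IsCocycle (U : ι → Set B) (f : ι → ι → B → ℂ) (h : ι → ι → ι → B → ℂ) : Prop :=
  (∀ i j k, HolomorphicOn d (h i j k) (U i ∩ U j ∩ U k)) ∧
  ∀ i j k l, ∀ z ∈ U i ∩ U j ∩ U k ∩ U l,
    f i j z * h j k l z - h i k l z + h i j l z - h i j k z = 0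

/-- `h` is the coboundary of a 1-cochain with values in the line bundle with the transition
functions `f`. -/
def IsCoboundary (U : ι → Set B) (f : ι → ι → B → ℂ) (h : ι → ι → ι → B → ℂ) : Prop :=
  ∃ η : ι → ι → B → ℂ, (∀ i j, HolomorphicOn d (η i j) (U i ∩ U j)) ∧
    ∀ i j k, ∀ z ∈ U i ∩ U j ∩ U k, h i j k z = f i j z * η j k z - η i k z + η i j z

/-- `H² (U, L) = 0` for the line bundle `L` with the transition functions `f`. -/
def H2Vanishes (U : ι → Set B) (f : ι → ι → B → ℂ) : Prop :=
  ∀ h, IsCocycle d U f h → IsCoboundary d U f h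

/-- `P` is the principal bundle over `B` with structure group `ℝ ^ r / ℤ ^ r` which is trivial on
the open sets `U i`, where its transition functions have the smooth lifts `g i j` to `ℝ ^ r`:
it is covered by the images of `U i × ℝ ^ r` under the local diffeomorphisms `π i`, and `(z, v)` and
`(z', v')` have the same image if and only if `z = z'` and `v' = v + g i j z` modulo `ℤ ^ r`. -/
structure IsPrincipalTorusBundle {r : ℕ} {E H P : Type} [NormedAddCommGroup E] [NormedSpace ℝ E]
    [TopologicalSpace H] (I : ModelWithCorners ℝ E H) [TopologicalSpace P] [ChartedSpace H P]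
    (U : ι → Set B) (g : ι → ι → B → Fin r → ℝ) (π : ι → B × (Fin r → ℝ) → P) : Prop where
  smooth : ∀ i j, ContMDiffOn 𝓘(ℝ, EuclideanSpace ℂ (Fin d)) 𝓘(ℝ, Fin r → ℝ) ∞ (g i j) (U i ∩ U j)
  localDiffeomorph : ∀ i, ∀ y : B × (Fin r → ℝ), y.1 ∈ U i →
    IsLocalDiffeomorphAt (𝓘(ℝ, EuclideanSpace ℂ (Fin d)).prod 𝓘(ℝ, Fin r → ℝ)) I ∞ (π i) y
  surjective : ∀ y, ∃ i, ∃ y' : B × (Fin r → ℝ), y'.1 ∈ U i ∧ π i y' = y
  fibres : ∀ i j, ∀ y y' : B × (Fin r → ℝ), y.1 ∈ U i → y'.1 ∈ U j →
    (π i y = π j y' ↔ y.1 = y'.1 ∧ ∀ s, ∃ a : ℤ, y'.2 s = y.2 s + g i j y.1 s + a)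

end

/-- The Čech 2-cocycle of the Chern class number `s` of the principal torus bundle; its values are
integers. -/
def chern {B ι : Type} {r : ℕ} (g : ι → ι → B → Fin r → ℝ) (s : Fin r) (i j k : ι) (z : B) : ℝ :=
  g i j z s + g j k z s - g i k z s

/-- `β` is the Lie bracket of a two-step nilpotent (or abelian) Lie algebra: it is alternating, and
`[[x, y], z] = 0` for all `x`, `y`, `z`. -/
structure IsTwoStep {V : Type} [AddCommGroup V] [Module ℝ V] (β : V →ₗ[ℝ] V →ₗ[ℝ] V) : Prop where
  alt : ∀ x, β x x = 0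
  step : ∀ x y z, β (β x y) z = 0

/-- The dimension of the commutator algebra, the span of all `[x, y]`. -/
noncomputable def commutatorDim {V : Type} [AddCommGroup V] [Module ℝ V]
    (β : V →ₗ[ℝ] V →ₗ[ℝ] V) : ℕ :=
  finrank ℝ (Submodule.span ℝ {v | ∃ x y, β x y = v})

/-- The dimension of the center `{x | [x, y] = 0 for all y}`. -/
noncomputable def centerDim {V : Type} [AddCommGroup V] [Module ℝ V]
    (β : V →ₗ[ℝ] V →ₗ[ℝ] V) : ℕ :=
  finrank ℝ (LinearMap.ker β)

/-- The product `x * y = x + y + [x, y] / 2` of the simply connected Lie group with Lie algebra `V`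
(the Baker-Campbell-Hausdorff product). -/
noncomputable def mul {V : Type} [AddCommGroup V] [Module ℝ V] (β : V →ₗ[ℝ] V →ₗ[ℝ] V)
    (x y : V) : V :=
  x + y + (1 / 2 : ℝ) • β x y

/-- The manifold `M` is, by `π`, the quotient of the group with Lie algebra `(V, β)` by the left
translations with the elements of `Γ`: `π` is a surjective local diffeomorphism, and its fibres are
the orbits `{γ * x}`. It follows that `Γ` is a discrete subgroup, as it is the fibre of `π` over
`π 0`. -/
structure IsQuotient {V M E H : Type} [NormedAddCommGroup V] [NormedSpace ℝ V]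
    [NormedAddCommGroup E] [NormedSpace ℝ E] [TopologicalSpace H] (I : ModelWithCorners ℝ E H)
    [TopologicalSpace M] [ChartedSpace H M] (β : V →ₗ[ℝ] V →ₗ[ℝ] V) (Γ : Set V) (π : V → M) :
    Prop where
  surjective : Function.Surjective π
  localDiffeomorph : IsLocalDiffeomorph 𝓘(ℝ, V) I ∞ π
  fibres : ∀ x y, π x = π y ↔ ∃ γ ∈ Γ, mul β γ x = y

/-- `T` is, by `τ`, the torus `ℝ ^ q / ℤ ^ q`. -/
structure IsTorus {q : ℕ} {E H T : Type} [NormedAddCommGroup E] [NormedSpace ℝ E]
    [TopologicalSpace H] (I : ModelWithCorners ℝ E H) [TopologicalSpace T] [ChartedSpace H T]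
    (τ : (Fin q → ℝ) → T) : Prop where
  surjective : Function.Surjective τ
  localDiffeomorph : IsLocalDiffeomorph 𝓘(ℝ, Fin q → ℝ) I ∞ τ
  fibres : ∀ v v', τ v = τ v' ↔ ∀ l, ∃ a : ℤ, v' l = v l + a

/-- The real manifold `M` is diffeomorphic to a complex manifold of complex dimension `k`. -/
def HasComplexStructure {E H : Type} [NormedAddCommGroup E] [NormedSpace ℝ E]
    [TopologicalSpace H] (I : ModelWithCorners ℝ E H) (k : ℕ) (M : Type) [TopologicalSpace M]
    [ChartedSpace H M] : Prop :=
  ∃ (N : Type) (_ : TopologicalSpace N) (_ : ChartedSpace (EuclideanSpace ℂ (Fin k)) N),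
    IsManifold 𝓘(ℂ, EuclideanSpace ℂ (Fin k)) ∞ N ∧
    Nonempty (Diffeomorph I 𝓘(ℝ, EuclideanSpace ℂ (Fin k)) M N ∞)

section

variable {d : ℕ} {B : Type} [TopologicalSpace B] [ChartedSpace (EuclideanSpace ℂ (Fin d)) B]
  {ι : Type}

/-- The Chern classes are integral. -/
theorem chern_int {r : ℕ} {E H P : Type} [NormedAddCommGroup E] [NormedSpace ℝ E]
    [TopologicalSpace H] {I : ModelWithCorners ℝ E H} [TopologicalSpace P] [ChartedSpace H P]
    {U : ι → Set B} {g : ι → ι → B → Fin r → ℝ} {π : ι → B × (Fin r → ℝ) → P}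
    (hP : IsPrincipalTorusBundle d I U g π) (s : Fin r) (i j k : ι) (z : B)
    (hz : z ∈ U i ∩ U j ∩ U k) : ∃ a : ℤ, chern g s i j k z = a := by
  have h1 : π i (z, 0) = π j (z, g i j z) :=
    (hP.fibres i j (z, 0) (z, g i j z) hz.1.1 hz.1.2).2 ⟨rfl, fun s => ⟨0, by simp⟩⟩
  have h2 : π j (z, g i j z) = π k (z, g i j z + g j k z) :=
    (hP.fibres j k (z, g i j z) (z, g i j z + g j k z) hz.1.2 hz.2).2
      ⟨rfl, fun s => ⟨0, by simp⟩⟩
  obtain ⟨-, h3⟩ := (hP.fibres i k (z, 0) (z, g i j z + g j k z) hz.1.1 hz.2).1 (h1.trans h2)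
  obtain ⟨a, ha⟩ := h3 s
  refine ⟨a, ?_⟩
  simp only [Pi.add_apply, Pi.zero_apply, zero_add] at ha
  rw [chern, ha]
  ring

/-- If `H² (U, L) = 0` then the products of the Chern classes with the sections vanish. -/
theorem isCoboundary_of_H2Vanishes {m r : ℕ} {E H P : Type} [NormedAddCommGroup E]
    [NormedSpace ℝ E] [TopologicalSpace H] {I : ModelWithCorners ℝ E H} [TopologicalSpace P]
    [ChartedSpace H P] {U : ι → Set B} {f : ι → ι → B → ℂ} {x : ι → B → Fin (m + 1) → ℂ}
    (hL : IsGeneratedLineBundle d U f x) {g : ι → ι → B → Fin r → ℝ}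
    {π : ι → B × (Fin r → ℝ) → P} (hP : IsPrincipalTorusBundle d I U g π) (h2 : H2Vanishes d U f)
    (s : Fin r) (l : Fin (m + 1)) :
    IsCoboundary d U f (fun i j k z => (chern g s i j k z : ℂ) * x i z l) := by
  refine h2 _ ⟨fun i j k z hz => ContMDiffAt.contMDiffWithinAt ?_, fun i j k l' z hz => ?_⟩
  · have ho : IsOpen (U i ∩ U j ∩ U k) :=
      ((hL.isOpen i).inter (hL.isOpen j)).inter (hL.isOpen k)
    have hg : ∀ i j, z ∈ U i ∩ U j → ContinuousAt (fun z => g i j z s) z := fun i j hz =>
      continuousAt_pi.1 ((hP.smooth i j).continuousOn.continuousAt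
        (((hL.isOpen i).inter (hL.isOpen j)).mem_nhds hz)) s
    have hc : ContinuousAt (fun z => chern g s i j k z) z :=
      ((hg i j hz.1).add (hg j k ⟨hz.1.2, hz.2⟩)).sub (hg i k ⟨hz.1.1, hz.2⟩)
    have hev : ∀ᶠ y in 𝓝 z, chern g s i j k y = chern g s i j k z := by
      have h3 : ∀ᶠ y in 𝓝 z, |chern g s i j k y - chern g s i j k z| < 1 := by
        have h4 := Metric.tendsto_nhds.1 hc 1 one_pos
        simpa [Real.dist_eq] using h4
      filter_upwards [h3, ho.mem_nhds hz] with y hy hyU
      obtain ⟨a, ha⟩ := chern_int hP s i j k y hyU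
      obtain ⟨b, hb⟩ := chern_int hP s i j k z hz
      rw [ha, hb] at hy ⊢
      have h5 : |a - b| < 1 := by exact_mod_cast hy
      have h6 : a = b := by
        rw [Int.abs_lt_one_iff] at h5
        omega
      rw [h6]
    have hx : ContMDiffAt 𝓘(ℂ, EuclideanSpace ℂ (Fin d)) 𝓘(ℂ, ℂ) ∞ (fun y => x i y l) z :=
      contMDiffAt_pi_space.1
        ((hL.holomorphic_section i).contMDiffAt ((hL.isOpen i).mem_nhds hz.1.1)) l
    have h7 : ContMDiffAt 𝓘(ℂ, EuclideanSpace ℂ (Fin d)) 𝓘(ℂ, ℂ) ∞
        (fun y => (chern g s i j k z : ℂ) * x i y l) z := contMDiffAt_const.mul hx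
    refine h7.congr_of_eventuallyEq ?_
    filter_upwards [hev] with y hy
    rw [hy]
  · have h3 := congrFun (hL.transition i j z hz.1.1) l
    rw [Pi.smul_apply, smul_eq_mul] at h3
    simp only [chern]
    rw [h3]
    push_cast
    ring

end

/-- Tori are compact. -/
theorem IsTorus.compactSpace {q : ℕ} {E H T : Type} [NormedAddCommGroup E] [NormedSpace ℝ E]
    [TopologicalSpace H] {I : ModelWithCorners ℝ E H} [TopologicalSpace T] [ChartedSpace H T]
    {τ : (Fin q → ℝ) → T} (hT : IsTorus I τ) : CompactSpace T := by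
  have h1 : Set.univ = τ '' Set.Icc 0 1 := by
    symm
    rw [Set.eq_univ_iff_forall]
    intro y
    obtain ⟨s, rfl⟩ := hT.surjective y
    refine ⟨fun l => Int.fract (s l), ⟨fun l => Int.fract_nonneg _,
      fun l => (Int.fract_lt_one _).le⟩, ?_⟩
    exact (hT.fibres _ _).2 fun l => ⟨⌊s l⌋, by rw [Int.fract_add_floor]⟩
  refine ⟨?_⟩
  rw [h1]
  exact isCompact_Icc.image hT.localDiffeomorph.contMDiff.continuous

/-- (1) Let `B` be a Hausdorff `σ`-compact complex manifold of dimension `d`, let `L` be a line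
bundle on `B` generated by the sections `x_0, …, x_m`, let `P` be a principal torus bundle over `B`
with fibre `ℝ ^ r / ℤ ^ r` and let `T = ℝ ^ q / ℤ ^ q`. Assume `H² (B, L) = 0`, or that the product
of every Chern class of `P` with every `x_l` vanishes in `H² (B, L)`. If `r ≤ 2p`, `r + q = 2s` and
`(m + 1)(m + p) ≤ s`, then `P × T` is diffeomorphic to a complex manifold, of dimension `d + s`. -/
def PrincipalBundles : Prop :=
  ∀ (d m p r q s : ℕ), r ≤ 2 * p → r + q = 2 * s → (m + 1) * (m + p) ≤ s →
    ∀ (B : Type) [TopologicalSpace B] [T2Space B] [SigmaCompactSpace B]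
    [ChartedSpace (EuclideanSpace ℂ (Fin d)) B]
    [IsManifold 𝓘(ℂ, EuclideanSpace ℂ (Fin d)) ∞ B]
    (ι : Type) (U : ι → Set B) (f : ι → ι → B → ℂ) (x : ι → B → Fin (m + 1) → ℂ),
    IsGeneratedLineBundle d U f x →
    ∀ (P : Type) [TopologicalSpace P] [ChartedSpace (EuclideanSpace ℝ (Fin (2 * d + r))) P]
    [IsManifold (𝓡 (2 * d + r)) ∞ P]
    (g : ι → ι → B → Fin r → ℝ) (π : ι → B × (Fin r → ℝ) → P),
    IsPrincipalTorusBundle d (𝓡 (2 * d + r)) U g π →
    (H2Vanishes d U f ∨ ∀ (s : Fin r) (l : Fin (m + 1)),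
      IsCoboundary d U f (fun i j k z => (chern g s i j k z : ℂ) * x i z l)) →
    ∀ (T : Type) [TopologicalSpace T] [ChartedSpace (EuclideanSpace ℝ (Fin q)) T]
    [IsManifold (𝓡 q) ∞ T] (τ : (Fin q → ℝ) → T), IsTorus (𝓡 q) τ →
    HasComplexStructure ((𝓡 (2 * d + r)).prod (𝓡 q)) (d + s) (P × T)

/-- (2) Let `G` be a simply connected two-step nilpotent Lie group with Lie algebra `(V, β)`, let
`dim G = 2k`, `dim G / Z(G) ≤ 2m`, `dim [G, G] ≤ 2p` and `(m + 1)(m + p) + m ≤ k`. Then every compact
smooth manifold which is a quotient of `G` by left translations is diffeomorphic to a complex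
manifold. -/
def TwoStepGroups : Prop :=
  ∀ (k m p : ℕ) (V : Type) [NormedAddCommGroup V] [NormedSpace ℝ V]
    [FiniteDimensional ℝ V] (β : V →ₗ[ℝ] V →ₗ[ℝ] V), finrank ℝ V = 2 * k → IsTwoStep β →
    2 * k ≤ centerDim β + 2 * m → commutatorDim β ≤ 2 * p → (m + 1) * (m + p) + m ≤ k →
    ∀ (M : Type) [TopologicalSpace M] [ChartedSpace (EuclideanSpace ℝ (Fin (2 * k))) M]
    [IsManifold (𝓡 (2 * k)) ∞ M] [CompactSpace M] (Γ : Set V) (π : V → M),
    IsQuotient (𝓡 (2 * k)) β Γ π → HasComplexStructure (𝓡 (2 * k)) k M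

/-- (3) In particular, if `N₀` is a compact smooth `n`-manifold which is a quotient of a simply
connected two-step nilpotent Lie group by left translations, and `T = ℝ ^ q / ℤ ^ q` is a torus with
`2q ≥ (n + 3)²` and `n + q = 2k`, then `N₀ × T` is diffeomorphic to a complex manifold. -/
def TwoStepTimesTorus : Prop :=
  ∀ (n q k : ℕ), n + q = 2 * k → (n + 3) ^ 2 ≤ 2 * q →
    ∀ (V : Type) [NormedAddCommGroup V] [NormedSpace ℝ V]
    [FiniteDimensional ℝ V] (β : V →ₗ[ℝ] V →ₗ[ℝ] V), finrank ℝ V = n → IsTwoStep β →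
    ∀ (N₀ : Type) [TopologicalSpace N₀] [ChartedSpace (EuclideanSpace ℝ (Fin n)) N₀]
    [IsManifold (𝓡 n) ∞ N₀] [CompactSpace N₀] (Γ : Set V) (π : V → N₀),
    IsQuotient (𝓡 n) β Γ π →
    ∀ (T : Type) [TopologicalSpace T] [ChartedSpace (EuclideanSpace ℝ (Fin q)) T]
    [IsManifold (𝓡 q) ∞ T] (τ : (Fin q → ℝ) → T), IsTorus (𝓡 q) τ →
    HasComplexStructure ((𝓡 n).prod (𝓡 q)) k (N₀ × T)

/-- **Principal torus bundles times tori are complex**: for principal torus bundles `P` over complex
manifolds `B` with a generated line bundle `L` such that `H² (B, L) = 0` (`PrincipalBundles`), and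
without assumptions on cohomology if `B` is a torus, that is for two-step nilmanifolds
(`TwoStepGroups`, `TwoStepTimesTorus`). -/
theorem result : PrincipalBundles ∧ TwoStepGroups ∧ TwoStepTimesTorus := by
  refine ⟨?_, ?_, ?_⟩
  · intro d m p r q s hr hq hs B _ _ _ _ _ ι U f x hL P _ _ _ g π hP hH T _ _ _ τ hT
    obtain ⟨t, rfl⟩ := Nat.exists_eq_add_of_le hs
    have hH' : ∀ (s : Fin r) (l : Fin (m + 1)),
        IsCoboundary d U f (fun i j k z => (chern g s i j k z : ℂ) * x i z l) := by
      rcases hH with h | h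
      · exact isCoboundary_of_H2Vanishes hL hP h
      · exact h
    exact K6.H52.SB.mainP (d := d) (by simp) hr hq rfl hL.isOpen hL.cover hL.holomorphic
      hL.holomorphic_section hL.transition hL.no_common_zeros hP.smooth hH' (by simp) π
      hP.localDiffeomorph hP.surjective hP.fibres τ hT.localDiffeomorph hT.surjective hT.fibres
  · intro k m p V _ _ _ β hV h hm hp hk M _ _ _ _ Γ π hπ
    exact K6.H52.ST.mainC hV h.alt h.step hm hp hk (finrank_euclideanSpace_fin) π
      hπ.localDiffeomorph hπ.surjective Γ hπ.fibres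
  · intro n q k hnk hq V _ _ _ β hV h N₀ _ _ _ _ Γ π hπ T _ _ _ τ hT
    have := hT.compactSpace
    refine K6.H52.ST.mainT hnk hq hV h.alt h.step (finrank_euclideanSpace_fin) π
      hπ.localDiffeomorph hπ.surjective Γ hπ.fibres τ hT.localDiffeomorph hT.surjective
      {a | ∀ l, ∃ n : ℤ, a l = n} fun v v' => ?_
    rw [hT.fibres]
    constructor
    · intro h
      refine ⟨v' - v, fun l => ?_, by abel⟩
      obtain ⟨n, hn⟩ := h l
      exact ⟨n, by rw [Pi.sub_apply, hn]; ring⟩
    · rintro ⟨a, ha, rfl⟩ l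
      obtain ⟨n, hn⟩ := ha l
      exact ⟨n, by rw [Pi.add_apply, hn]; ring⟩

end Pool.Agent.Results.MP_1d980c_gt.PrincipalTimesTorus
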