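import Pool.Agent.K6.H9.TC.Bt
import Pool.Agent.K6.H9.TC.Bd
import Pool.Agent.K6.H9.TC.Pt
import Pool.Agent.K6.H9.TC.Pg
import Pool.Agent.K6.H9.TC.Cd

set_option autoImplicit false

/-!
# Torus bundles over bases of dimension two and three are complex

(1) Let `B` be a complex manifold (Hausdorff and `σ`-compact, for example compact) of dimension `d`,
let `L` be a holomorphic line bundle on `B` with `H² (B, L) = 0` and let `P` be a smooth principal
bundle over `B` whose structure group is a torus of even dimension `r`. Then `P` carries a complex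
structure in the following two cases:

* `L` is generated by two sections, and `r ≥ 4`;
* `L` is generated by four sections, `H¹ (B, L²) = 0`, and `r ≥ 6`.

There is no condition on the Chern classes `c_1, …, c_r ∈ H² (B, ℤ)` of `P`, in particular none on
their types, and there is no additional torus factor. Instead of `H² (B, L) = 0` it suffices that
`x_l c_s = 0` in `H² (B, L)` for all `s` and all sections `x_l`.

Line bundles as in the first case exist on every projective surface with a nonconstant map to a
curve, for example on elliptic `K3` surfaces and on products of elliptic curves (pull back a line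
bundle of high degree), and on products of curves with projective manifolds with `h^{2,0} = 0`.
Line bundles as in the second case exist on every projective manifold of dimension at most three:
every sufficiently high power of an ample line bundle. (This follows from the theorems of Serre and
Bertini, which are not used here.) So, for example, every principal `T⁴`-bundle over a `K3`
surface and every principal `T⁶`-bundle over a projective threefold is a complex manifold.

(2) Let `G` be a simply connected two-step nilpotent Lie group, `dim G = 2k`. If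
`dim G / Z(G) ≤ 4` and `dim G ≥ 8`, or `dim G / Z(G) ≤ 6` and `dim G ≥ 16`, then every compact
smooth manifold `M` which is a quotient of `G` by left translations, that is every compact
nilmanifold `Γ \ G`, carries a complex structure. In the second case, `dim G ≥ 12` suffices if
`dim [G, G] ≤ 2k - 6`, for example if `dim G / Z(G) = 6`. The manifolds `M` are parallelizable.

Here `G` is given by its Lie algebra: a real vector space `V` with a Lie bracket `β` such that
`[[x, y], z] = 0`, and the product of `G` is `x * y = x + y + [x, y] / 2`.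

The idea: `ℝ⁶` is the space of real elements `v` of `Λ² ℂ⁴`, and its orthogonal complex structures
are parametrised by the twistor space `P³ = SO(6) / U(3)`: for `x ∈ ℂ⁴`, `x ≠ 0`, the map `v ↦ v x`
is an isomorphism of `ℝ⁶` and the complex vector space `{y ∈ ℂ⁴ | x y = 0}`. There are similar
families of complex structures, parametrised by `P³`, on all real vector spaces of even dimension at
least six: on `ℝ⁸ = ℂ⁴` and `ℝ¹⁰ = ℂ⁵` one takes `M (c) x` and `K (c) x` with `M (c)` in `Λ² ℂ⁴`
complex linear and `K (c)` complex antilinear in `c`, modulo `J x` with constant `J ∈ Λ² ℂ⁴` (null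
correlation bundles). The general case is a direct sum of these. Similarly, there are families
parametrised by `P¹` on all real vector spaces of even dimension at least four, sums of `ℝ⁴`
(quaternions) and `ℝ⁶` (a conic in `P³`), whose complex coordinates are polynomials in `t ∈ ℂ²` of
degree one and two.

Let now `x` be the sections of `L` (for (2): theta functions on `ℂ` or `ℂ³` without common zeros).
Complex coordinates on the total space are `z` and components of `ζ = M (v) x (z) + e (z)`, where
the smooth function `e` is chosen such that `x ζ` is holomorphic and such that the transition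
functions are affine in `ζ` with holomorphic coefficients: `e` splits the cocycle `M (v_ij) x`
modulo holomorphic functions, this uses `H² (B, L) = 0`, and then it is corrected by a smooth section
of `L²` times `conj x / |x|²`, this uses `H¹ (B, L²) = 0`. For (2) the function `e` is written down
explicitly, with the operators `T ↦ ∂T / (2 π m) + z T`, which turn a theta function `T` of weight
`m` into a holomorphic function with the transformation law of `conj (z) T`.
-/

namespace Pool.Agent.Results.MP_1d980c_gt.TwistorTorusBundles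

open Complex Module Filter
open scoped Manifold ContDiff Topology

section

variable (d : ℕ) {n : ℕ} {B : Type} [TopologicalSpace B] [ChartedSpace (EuclideanSpace ℂ (Fin d)) B]
  {ι : Type}

/-- The function `h` on the complex manifold `B` of dimension `d` is holomorphic on the set `s`. -/
def HolomorphicOn {F : Type} [NormedAddCommGroup F] [NormedSpace ℂ F] (h : B → F) (s : Set B) :
    Prop :=
  ContMDiffOn 𝓘(ℂ, EuclideanSpace ℂ (Fin d)) 𝓘(ℂ, F) ∞ h s

/-- `U` is an open cover of `B`, `f i j` are the transition functions of a holomorphic line bundle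
`L` which is trivial on the sets `U i`, and `x i` are the expressions on `U i` of `n` holomorphic
sections of `L` without common zeros. (It follows that `f i j` has no zeros on `U i ∩ U j` and that
`f i j * f j k = f i k`.) -/
structure IsGeneratedLineBundle (U : ι → Set B) (f : ι → ι → B → ℂ)
    (x : ι → B → Fin n → ℂ) : Prop where
  isOpen : ∀ i, IsOpen (U i)
  cover : ∀ z, ∃ i, z ∈ U i
  holomorphic : ∀ i j, HolomorphicOn d (f i j) (U i ∩ U j)
  holomorphic_section : ∀ i, HolomorphicOn d (x i) (U i)
  transition : ∀ i j, ∀ z ∈ U i ∩ U j, x i z = f i j z • x j z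
  no_common_zeros : ∀ i, ∀ z ∈ U i, x i z ≠ 0

/-- `H¹ (U, L) = 0` for the line bundle `L` with the transition functions `f`: every Čech 1-cocycle
is the coboundary of a 0-cochain. -/
def H1Vanishes (U : ι → Set B) (f : ι → ι → B → ℂ) : Prop :=
  ∀ κ : ι → ι → B → ℂ, (∀ i j, HolomorphicOn d (κ i j) (U i ∩ U j)) →
    (∀ i j k, ∀ z ∈ U i ∩ U j ∩ U k, f i j z * κ j k z - κ i k z + κ i j z = 0) →
    ∃ h : ι → B → ℂ, (∀ i, HolomorphicOn d (h i) (U i)) ∧
      ∀ i j, ∀ z ∈ U i ∩ U j, κ i j z = f i j z * h j z - h i z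

/-- `h` is a Čech 2-cocycle with values in the line bundle with the transition functions `f`. -/
def IsCocycle (U : ι → Set B) (f : ι → ι → B → ℂ) (h : ι → ι → ι → B → ℂ) : Prop :=
  (∀ i j k, HolomorphicOn d (h i j k) (U i ∩ U j ∩ U k)) ∧
  ∀ i j k l, ∀ z ∈ U i ∩ U j ∩ U k ∩ U l,
    f i j z * h j k l z - h i k l z + h i j l z - h i j k z = 0

/-- `h` is the coboundary of a 1-cochain with values in the line bundle with the transition
functions `f`. -/
def IsCoboundary (U : ι → Set B) (f : ι → ι → B → ℂ) (h : ι → ι → ι → B → ℂ) : Prop :=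
  ∃ η : ι → ι → B → ℂ, (∀ i j, HolomorphicOn d (η i j) (U i ∩ U j)) ∧
    ∀ i j k, ∀ z ∈ U i ∩ U j ∩ U k, h i j k z = f i j z * η j k z - η i k z + η i j z

/-- `H² (U, L) = 0` for the line bundle `L` with the transition functions `f`. -/
def H2Vanishes (U : ι → Set B) (f : ι → ι → B → ℂ) : Prop :=
  ∀ h, IsCocycle d U f h → IsCoboundary d U f h

/-- `P` is the principal bundle over `B` with structure group `ℝ ^ r / ℤ ^ r` which is trivial on
the open sets `U i`, where its transition functions have the smooth lifts `g i j` to `ℝ ^ r`: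
it is covered by the images of `U i × ℝ ^ r` under the local diffeomorphisms `π i`, and `(z, v)` and
`(z', v')` have the same image if and only if `z = z'` and `v' = v + g i j z` modulo `ℤ ^ r`. -/
structure IsPrincipalTorusBundle {r : ℕ} {E H P : Type} [NormedAddCommGroup E] [NormedSpace ℝ E]
    [TopologicalSpace H] (I : ModelWithCorners ℝ E H) [TopologicalSpace P] [ChartedSpace H P]
    (U : ι → Set B) (g : ι → ι → B → Fin r → ℝ) (π : ι → B × (Fin r → ℝ) → P) : Prop where
  smooth : ∀ i j, ContMDiffOn 𝓘(ℝ, EuclideanSpace ℂ (Fin d)) 𝓘(ℝ, Fin r → ℝ) ∞ (g i j) (U i ∩ U j)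
  localDiffeomorph : ∀ i, ∀ y : B × (Fin r → ℝ), y.1 ∈ U i →
    IsLocalDiffeomorphAt (𝓘(ℝ, EuclideanSpace ℂ (Fin d)).prod 𝓘(ℝ, Fin r → ℝ)) I ∞ (π i) y
  surjective : ∀ y, ∃ i, ∃ y' : B × (Fin r → ℝ), y'.1 ∈ U i ∧ π i y' = y
  fibres : ∀ i j, ∀ y y' : B × (Fin r → ℝ), y.1 ∈ U i → y'.1 ∈ U j →
    (π i y = π j y' ↔ y.1 = y'.1 ∧ ∀ s, ∃ a : ℤ, y'.2 s = y.2 s + g i j y.1 s + a)

end

/-- The Čech 2-cocycle of the Chern class number `s` of the principal torus bundle; its values are
integers. -/
def chern {B ι : Type} {r : ℕ} (g : ι → ι → B → Fin r → ℝ) (s : Fin r) (i j k : ι) (z : B) : ℝ :=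
  g i j z s + g j k z s - g i k z s

/-- The real manifold `M` is diffeomorphic to a complex manifold of complex dimension `k`. -/
def HasComplexStructure {E H : Type} [NormedAddCommGroup E] [NormedSpace ℝ E]
    [TopologicalSpace H] (I : ModelWithCorners ℝ E H) (k : ℕ) (M : Type) [TopologicalSpace M]
    [ChartedSpace H M] : Prop :=
  ∃ (N : Type) (_ : TopologicalSpace N) (_ : ChartedSpace (EuclideanSpace ℂ (Fin k)) N),
    IsManifold 𝓘(ℂ, EuclideanSpace ℂ (Fin k)) ∞ N ∧
    Nonempty (Diffeomorph I 𝓘(ℝ, EuclideanSpace ℂ (Fin k)) M N ∞)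

/-- `β` is the Lie bracket of a two-step nilpotent (or abelian) Lie algebra: it is alternating, and
`[[x, y], z] = 0` for all `x`, `y`, `z`. -/
structure IsTwoStep {V : Type} [AddCommGroup V] [Module ℝ V] (β : V →ₗ[ℝ] V →ₗ[ℝ] V) : Prop where
  alt : ∀ x, β x x = 0
  step : ∀ x y z, β (β x y) z = 0

/-- The dimension of the commutator algebra, the span of all `[x, y]`. -/
noncomputable def commutatorDim {V : Type} [AddCommGroup V] [Module ℝ V]
    (β : V →ₗ[ℝ] V →ₗ[ℝ] V) : ℕ :=
  finrank ℝ (Submodule.span ℝ {v | ∃ x y, β x y = v})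

/-- The dimension of the center `{x | [x, y] = 0 for all y}`. -/
noncomputable def centerDim {V : Type} [AddCommGroup V] [Module ℝ V]
    (β : V →ₗ[ℝ] V →ₗ[ℝ] V) : ℕ :=
  finrank ℝ (LinearMap.ker β)

/-- The product `x * y = x + y + [x, y] / 2` of the simply connected Lie group with Lie algebra `V`
(the Baker-Campbell-Hausdorff product). -/
noncomputable def mul {V : Type} [AddCommGroup V] [Module ℝ V] (β : V →ₗ[ℝ] V →ₗ[ℝ] V)
    (x y : V) : V :=
  x + y + (1 / 2 : ℝ) • β x y

/-- The manifold `M` is, by `π`, the quotient of the group with Lie algebra `(V, β)` by the left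
translations with the elements of `Γ`: `π` is a surjective local diffeomorphism, and its fibres are
the orbits `{γ * x}`. It follows that `Γ` is a discrete subgroup, as it is the fibre of `π` over
`π 0`. -/
structure IsQuotient {V M E H : Type} [NormedAddCommGroup V] [NormedSpace ℝ V]
    [NormedAddCommGroup E] [NormedSpace ℝ E] [TopologicalSpace H] (I : ModelWithCorners ℝ E H)
    [TopologicalSpace M] [ChartedSpace H M] (β : V →ₗ[ℝ] V →ₗ[ℝ] V) (Γ : Set V) (π : V → M) :
    Prop where
  surjective : Function.Surjective π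
  localDiffeomorph : IsLocalDiffeomorph 𝓘(ℝ, V) I ∞ π
  fibres : ∀ x y, π x = π y ↔ ∃ γ ∈ Γ, mul β γ x = y

section

variable {d n : ℕ} {B : Type} [TopologicalSpace B] [ChartedSpace (EuclideanSpace ℂ (Fin d)) B]
  {ι : Type}

/-- The Chern classes are integral. -/
theorem chern_int {r : ℕ} {E H P : Type} [NormedAddCommGroup E] [NormedSpace ℝ E]
    [TopologicalSpace H] {I : ModelWithCorners ℝ E H} [TopologicalSpace P] [ChartedSpace H P]
    {U : ι → Set B} {g : ι → ι → B → Fin r → ℝ} {π : ι → B × (Fin r → ℝ) → P}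
    (hP : IsPrincipalTorusBundle d I U g π) (s : Fin r) (i j k : ι) (z : B)
    (hz : z ∈ U i ∩ U j ∩ U k) : ∃ a : ℤ, chern g s i j k z = a := by
  have h1 : π i (z, 0) = π j (z, g i j z) :=
    (hP.fibres i j (z, 0) (z, g i j z) hz.1.1 hz.1.2).2 ⟨rfl, fun s => ⟨0, by simp⟩⟩
  have h2 : π j (z, g i j z) = π k (z, g i j z + g j k z) :=
    (hP.fibres j k (z, g i j z) (z, g i j z + g j k z) hz.1.2 hz.2).2
      ⟨rfl, fun s => ⟨0, by simp⟩⟩
  obtain ⟨-, h3⟩ := (hP.fibres i k (z, 0) (z, g i j z + g j k z) hz.1.1 hz.2).1 (h1.trans h2)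
  obtain ⟨a, ha⟩ := h3 s
  refine ⟨a, ?_⟩
  simp only [Pi.add_apply, Pi.zero_apply, zero_add] at ha
  rw [chern, ha]
  ring

/-- If `H² (U, L) = 0` then the products of the Chern classes with the sections vanish. -/
theorem isCoboundary_of_H2Vanishes {r : ℕ} {E H P : Type} [NormedAddCommGroup E]
    [NormedSpace ℝ E] [TopologicalSpace H] {I : ModelWithCorners ℝ E H} [TopologicalSpace P]
    [ChartedSpace H P] {U : ι → Set B} {f : ι → ι → B → ℂ} {x : ι → B → Fin n → ℂ}
    (hL : IsGeneratedLineBundle d U f x) {g : ι → ι → B → Fin r → ℝ}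
    {π : ι → B × (Fin r → ℝ) → P} (hP : IsPrincipalTorusBundle d I U g π) (h2 : H2Vanishes d U f)
    (s : Fin r) (l : Fin n) :
    IsCoboundary d U f (fun i j k z => (chern g s i j k z : ℂ) * x i z l) := by
  refine h2 _ ⟨fun i j k z hz => ContMDiffAt.contMDiffWithinAt ?_, fun i j k l' z hz => ?_⟩
  · have ho : IsOpen (U i ∩ U j ∩ U k) :=
      ((hL.isOpen i).inter (hL.isOpen j)).inter (hL.isOpen k)
    have hg : ∀ i j, z ∈ U i ∩ U j → ContinuousAt (fun z => g i j z s) z := fun i j hz =>
      continuousAt_pi.1 ((hP.smooth i j).continuousOn.continuousAt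
        (((hL.isOpen i).inter (hL.isOpen j)).mem_nhds hz)) s
    have hc : ContinuousAt (fun z => chern g s i j k z) z :=
      ((hg i j hz.1).add (hg j k ⟨hz.1.2, hz.2⟩)).sub (hg i k ⟨hz.1.1, hz.2⟩)
    have hev : ∀ᶠ y in 𝓝 z, chern g s i j k y = chern g s i j k z := by
      have h3 : ∀ᶠ y in 𝓝 z, |chern g s i j k y - chern g s i j k z| < 1 := by
        have h4 := Metric.tendsto_nhds.1 hc 1 one_pos
        simpa [Real.dist_eq] using h4
      filter_upwards [h3, ho.mem_nhds hz] with y hy hyU
      obtain ⟨a, ha⟩ := chern_int hP s i j k y hyU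
      obtain ⟨b, hb⟩ := chern_int hP s i j k z hz
      rw [ha, hb] at hy ⊢
      have h5 : |a - b| < 1 := by exact_mod_cast hy
      have h6 : a = b := by
        rw [Int.abs_lt_one_iff] at h5
        omega
      rw [h6]
    have hx : ContMDiffAt 𝓘(ℂ, EuclideanSpace ℂ (Fin d)) 𝓘(ℂ, ℂ) ∞ (fun y => x i y l) z :=
      contMDiffAt_pi_space.1
        ((hL.holomorphic_section i).contMDiffAt ((hL.isOpen i).mem_nhds hz.1.1)) l
    have h7 : ContMDiffAt 𝓘(ℂ, EuclideanSpace ℂ (Fin d)) 𝓘(ℂ, ℂ) ∞
        (fun y => (chern g s i j k z : ℂ) * x i y l) z := contMDiffAt_const.mul hx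
    refine h7.congr_of_eventuallyEq ?_
    filter_upwards [hev] with y hy
    rw [hy]
  · have h3 := congrFun (hL.transition i j z hz.1.1) l
    rw [Pi.smul_apply, smul_eq_mul] at h3
    simp only [chern]
    rw [h3]
    push_cast
    ring

end

/-- **Torus bundles and nilmanifolds.**

(1) Let `B` be a Hausdorff `σ`-compact complex manifold of dimension `d`, let `L` be a line bundle
on `B` generated by `n` sections `x_l`, and let `P` be a principal torus bundle over `B`
with fibre `ℝ ^ (2m) / ℤ ^ (2m)`. Assume that `n = 2` and `m ≥ 2`, or `n = 4` and `m ≥ 3` and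
`H¹ (B, L²) = 0`. Assume that `H² (B, L) = 0` or that the product of every Chern class of `P` with
every `x_l` vanishes in `H² (B, L)`. Then `P` is diffeomorphic to a complex manifold, of complex
dimension `d + m`.

(2) Let `G` be a simply connected two-step nilpotent Lie group with Lie algebra `(V, β)`,
`dim G = 2k`. Assume that `dim G / Z(G) ≤ 4` and `2k ≥ 8`, or `dim G / Z(G) ≤ 6` and `2k ≥ 16`, or
`dim G / Z(G) ≤ 6` and `dim [G, G] + 6 ≤ 2k` and `2k ≥ 12`. Then every compact
smooth manifold which is a quotient of `G` by left translations carries a complex structure. -/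
theorem result :
    (∀ (d n m : ℕ) (B : Type) [TopologicalSpace B] [T2Space B] [SigmaCompactSpace B]
      [ChartedSpace (EuclideanSpace ℂ (Fin d)) B] [IsManifold 𝓘(ℂ, EuclideanSpace ℂ (Fin d)) ∞ B]
      (ι : Type) (U : ι → Set B) (f : ι → ι → B → ℂ) (x : ι → B → Fin n → ℂ),
      IsGeneratedLineBundle d U f x →
      (n = 2 ∧ 2 ≤ m ∨ n = 4 ∧ 3 ≤ m ∧ H1Vanishes d U (fun i j z => f i j z ^ 2)) →
      ∀ (P : Type) [TopologicalSpace P] [ChartedSpace (EuclideanSpace ℝ (Fin (2 * d + 2 * m))) P]
      [IsManifold (𝓡 (2 * d + 2 * m)) ∞ P]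
      (g : ι → ι → B → Fin (2 * m) → ℝ) (π : ι → B × (Fin (2 * m) → ℝ) → P),
      IsPrincipalTorusBundle d (𝓡 (2 * d + 2 * m)) U g π →
      (H2Vanishes d U f ∨ ∀ (s : Fin (2 * m)) (l : Fin n),
        IsCoboundary d U f (fun i j k z => (chern g s i j k z : ℂ) * x i z l)) →
      HasComplexStructure (𝓡 (2 * d + 2 * m)) (d + m) P) ∧
    (∀ (k : ℕ) (V : Type) [NormedAddCommGroup V] [NormedSpace ℝ V]
      [FiniteDimensional ℝ V] (β : V →ₗ[ℝ] V →ₗ[ℝ] V), finrank ℝ V = 2 * k → IsTwoStep β →
      (2 * k ≤ centerDim β + 4 ∧ 4 ≤ k ∨ 2 * k ≤ centerDim β + 6 ∧ 8 ≤ k ∨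
        2 * k ≤ centerDim β + 6 ∧ commutatorDim β + 6 ≤ 2 * k ∧ 6 ≤ k) →
      ∀ (M : Type) [TopologicalSpace M] [ChartedSpace (EuclideanSpace ℝ (Fin (2 * k))) M]
      [IsManifold (𝓡 (2 * k)) ∞ M] [CompactSpace M] (Γ : Set V) (π : V → M),
      IsQuotient (𝓡 (2 * k)) β Γ π → HasComplexStructure (𝓡 (2 * k)) k M) := by
  refine ⟨?_, ?_⟩
  · intro d n m B _ _ _ _ _ ι U f x hL hm P _ _ _ g π hP hH
    have hH' : ∀ (s : Fin (2 * m)) (l : Fin n),
        IsCoboundary d U f (fun i j k z => (chern g s i j k z : ℂ) * x i z l) := by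
      rcases hH with h | h
      · exact isCoboundary_of_H2Vanishes hL hP h
      · exact h
    rcases hm with ⟨rfl, hm⟩ | ⟨rfl, hm, h1⟩
    · exact K6.H9.TC.mainH1 hm (d := d) (by simp) rfl hL.isOpen hL.cover hL.holomorphic
        hL.holomorphic_section hL.transition hL.no_common_zeros hP.smooth hH' (by simp) π
        hP.localDiffeomorph hP.surjective hP.fibres
    · exact K6.H9.TC.mainH hm (d := d) (by simp) rfl hL.isOpen hL.cover hL.holomorphic
        hL.holomorphic_section hL.transition hL.no_common_zeros hP.smooth hH' h1 (by simp) π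
        hP.localDiffeomorph hP.surjective hP.fibres
  · intro k V _ _ _ β hV h hk M _ _ _ _ Γ π hπ
    rcases hk with ⟨hZ, hk⟩ | ⟨hZ, hk⟩ | ⟨hZ, hR, hk⟩
    · exact K6.H9.TC.mainC1 hV h.alt h.step hZ
        (K6.H9.TC.comm_add_four_le h.alt h.step hV hZ hk) hk (finrank_euclideanSpace_fin) π
        hπ.localDiffeomorph hπ.surjective Γ hπ.fibres
    · exact K6.H9.TC.mainC hV h.alt h.step hZ (K6.H9.TC.comm_add_six_le h.alt h.step hV hZ hk)
        (by omega) (finrank_euclideanSpace_fin) π
        hπ.localDiffeomorph hπ.surjective Γ hπ.fibres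
    · exact K6.H9.TC.mainC hV h.alt h.step hZ hR hk (finrank_euclideanSpace_fin) π
        hπ.localDiffeomorph hπ.surjective Γ hπ.fibres

end Pool.Agent.Results.MP_1d980c_gt.TwistorTorusBundles
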